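import Pool.Agent.Lib.MP_2d002d_gt.PM.Interfaces

/-!
# LOGD: derivatives of the logarithm
-/

set_option autoImplicit false

open MeasureTheory Set Filter Topology

namespace Pool.Agent.Lib.MP_2d002d_gt.PM.H39

theorem isOpen_Om (n : ℕ) (α β : ℝ) : IsOpen (Om n α β) := by
  have : Om n α β = {p : ℝ × (Fin n → ℝ) | 0 < α + β * p.1} ∩ ⋂ i, {p | 0 < p.2 i} := by
    ext p; simp [Om]
  rw [this]
  apply IsOpen.inter
  · exact isOpen_lt continuous_const (by fun_prop)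
  · exact isOpen_iInter_of_finite fun i => isOpen_lt continuous_const (by fun_prop)

theorem logd_core (n : ℕ) (α β : ℝ) (H : ℝ × (Fin n → ℝ) → ℝ)
    (hH : ContDiffOn ℝ 2 H (Om n α β)) (pos : ∀ p ∈ Om n α β, 0 < H p) :
    ContDiffOn ℝ 2 (fun q => Real.log (H q)) (Om n α β) ∧ ∀ p ∈ Om n α β,
      (∀ v, fderiv ℝ (fun q => Real.log (H q)) p v = fderiv ℝ H p v / H p) ∧
      (∀ v w, fderiv ℝ (fderiv ℝ (fun q => Real.log (H q))) p v w =
        fderiv ℝ (fderiv ℝ H) p v w / H p - fderiv ℝ H p v * fderiv ℝ H p w / H p ^ 2) ∧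
      (∀ v w, fderiv ℝ (fderiv ℝ H) p v w = fderiv ℝ (fderiv ℝ H) p w v) := by
  have hO := isOpen_Om n α β
  refine ⟨hH.log fun p hp => (pos p hp).ne', fun p hp => ?_⟩
  have hat : ∀ q ∈ Om n α β, ContDiffAt ℝ 2 H q := fun q hq => hH.contDiffAt (hO.mem_nhds hq)
  have hdiff : ∀ q ∈ Om n α β, DifferentiableAt ℝ H q := fun q hq =>
    (hat q hq).differentiableAt (by norm_num)
  have h1 : ∀ q ∈ Om n α β, fderiv ℝ (fun q => Real.log (H q)) q = (H q)⁻¹ • fderiv ℝ H q := by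
    intro q hq
    exact fderiv.log (hdiff q hq) (pos q hq).ne'
  have hfd : ContDiffAt ℝ 1 (fderiv ℝ H) p := (hat p hp).fderiv_right (by norm_num)
  have hfd' : DifferentiableAt ℝ (fderiv ℝ H) p := hfd.differentiableAt (by norm_num)
  have hne : H p ≠ 0 := (pos p hp).ne'
  have hinv : HasFDerivAt (fun q => (H q)⁻¹) (-(H p ^ 2)⁻¹ • fderiv ℝ H p) p := by
    have := (hasDerivAt_inv hne).comp_hasFDerivAt p (hdiff p hp).hasFDerivAt
    exact this
  refine ⟨fun v => ?_, fun v w => ?_, fun v w => ?_⟩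
  · rw [h1 p hp]
    simp only [smul_apply, smul_eq_mul]
    rw [div_eq_inv_mul]
  · have hev : fderiv ℝ (fun q => Real.log (H q)) =ᶠ[𝓝 p] fun q => (H q)⁻¹ • fderiv ℝ H q :=
      Filter.eventuallyEq_of_mem (hO.mem_nhds hp) h1
    rw [hev.fderiv_eq]
    have h2 := hinv.smul hfd'.hasFDerivAt
    rw [show fderiv ℝ (fun q => (H q)⁻¹ • fderiv ℝ H q) p = _ from h2.fderiv]
    simp only [add_apply, smul_apply,
      ContinuousLinearMap.smulRight_apply, smul_eq_mul]
    field_simp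
    ring
  · exact (hat p hp).isSymmSndFDerivAt (by simp) v w

/-- LOGD -/
theorem logd : LOGD_S := logd_core

end Pool.Agent.Lib.MP_2d002d_gt.PM.H39
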