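import Pool.Agent.Lib.MP_2d002d_gt.PM.Interfaces
import Pool.Agent.Lib.MP_2d002d_gt.H39.Kappa

/-!
# K1: the wall inequality for integrals of even log-concave functions
-/

set_option autoImplicit false

open MeasureTheory Set Filter Topology
open scoped ENNReal

namespace Pool.Agent.Lib.MP_2d002d_gt.PM.H39

/-- an even log-concave function is antitone on `[0, ∞)` -/
theorem even_anti (k : ℝ → ℝ≥0∞) (he : ∀ a, k (-a) = k a) (hl : LogC k)
    (a b : ℝ) (ha : 0 ≤ a) (hab : a ≤ b) : k b ≤ k a := by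
  rcases eq_or_lt_of_le hab with h | h
  · rw [h]
  · have hb : 0 < b := lt_of_le_of_lt ha h
    set t : ℝ := (a + b) / (2 * b) with ht
    have t0 : 0 < t := by positivity
    have t1 : t < 1 := by rw [ht, div_lt_one (by positivity)]; linarith
    have h1 := hl t t0 t1 (-b) b
    rw [he] at h1
    have h2 : k b ^ (1 - t) * k b ^ t = k b := by
      rw [← ENNReal.rpow_add_of_nonneg _ _ (by linarith) t0.le]
      have : 1 - t + t = 1 := by ring
      rw [this, ENNReal.rpow_one]
    have h3 : (1 - t) • (-b) + t • b = a := by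
      simp only [smul_eq_mul]
      rw [ht]; field_simp; ring
    rwa [h2, h3] at h1

/-- the module K1 -/
theorem k1_core (k : ℝ → ℝ≥0∞) (Φ Φ1 Φ2 : ℝ → ℝ) (hm : Measurable k) (he : ∀ a, k (-a) = k a)
    (hl : LogC k) (hΦ : ∀ x, 0 < x → ∫⁻ a in Icc (-x) x, k a = ENNReal.ofReal (Φ x))
    (hpos : ∀ x, 0 < x → 0 < Φ x) (hmono : ∀ x y, 0 < x → x < y → Φ x < Φ y)
    (hd : ∀ x, 0 < x → HasDerivAt Φ (Φ1 x) x) (hd1 : ∀ x, 0 < x → HasDerivAt Φ1 (Φ2 x) x) :
    ∀ x, 0 < x → WallIneq x (Φ x) (Φ1 x) (Φ2 x) := by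
  have anti := even_anti k he hl
  -- finiteness
  have hfin : ∀ x, 0 < x → k x ≠ ∞ := by
    intro x hx htop
    have h1 : ∫⁻ a in Icc (-x) x, k x ≤ ∫⁻ a in Icc (-x) x, k a := by
      apply setLIntegral_mono' measurableSet_Icc
      intro a ha
      rcases le_total 0 a with h | h
      · exact anti a x h ha.2
      · rw [← he a]; exact anti (-a) x (by linarith) (by linarith [ha.1])
    rw [hΦ x hx, setLIntegral_const, htop, Real.volume_Icc] at h1
    have : ENNReal.ofReal (x - -x) ≠ 0 := by
      rw [Ne, ENNReal.ofReal_eq_zero]; linarith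
    rw [ENNReal.top_mul this] at h1
    exact ENNReal.ofReal_ne_top (top_le_iff.1 h1)
  set κ : ℝ → ℝ := fun x => (k x).toReal with hκ
  have κ0 : ∀ x, 0 ≤ κ x := fun x => ENNReal.toReal_nonneg
  have kκ : ∀ x, 0 < x → k x = ENNReal.ofReal (κ x) := fun x hx =>
    (ENNReal.ofReal_toReal (hfin x hx)).symm
  -- half integrals
  have hhalf : ∀ x, 0 < x → ENNReal.ofReal (Φ x) = 2 * ∫⁻ a in Ioc 0 x, k a := by
    intro x hx
    have h1 : Icc (-x) x = Ico (-x) 0 ∪ Icc 0 x := by
      rw [Ico_union_Icc_eq_Icc] <;> linarith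
    have h2 : Disjoint (Ico (-x) 0) (Icc 0 x) := by
      rw [Set.disjoint_left]
      intro a ha hb
      exact absurd ha.2 (not_lt.2 hb.1)
    have h3 : ∫⁻ a in Ico (-x) 0, k a = ∫⁻ a in Ioc 0 x, k a := by
      have hp := (Measure.measurePreserving_neg (volume : Measure ℝ)).setLIntegral_comp_preimage
        (measurableSet_Ico (a := -x) (b := 0)) hm
      have hpre : (Neg.neg : ℝ → ℝ) ⁻¹' Ico (-x) 0 = Ioc 0 x := by
        ext a
        simp only [mem_preimage, mem_Ico, mem_Ioc]
        constructor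
        · intro h; constructor <;> linarith [h.1, h.2]
        · intro h; constructor <;> linarith [h.1, h.2]
      rw [hpre] at hp
      rw [← hp]
      simp only [he]
    have h4 : ∫⁻ a in Icc 0 x, k a = ∫⁻ a in Ioc 0 x, k a :=
      setLIntegral_congr Ioc_ae_eq_Icc.symm
    rw [← hΦ x hx, h1, lintegral_union measurableSet_Icc h2, h3, h4, two_mul]
  -- increments
  have hinc : ∀ x y, 0 < x → x < y → 2 * (y - x) * κ y ≤ Φ y - Φ x ∧
      Φ y - Φ x ≤ 2 * (y - x) * κ x := by
    intro x y hx hxy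
    have hy : 0 < y := hx.trans hxy
    have hsplit : ∫⁻ a in Ioc 0 y, k a = (∫⁻ a in Ioc 0 x, k a) + ∫⁻ a in Ioc x y, k a := by
      rw [← Ioc_union_Ioc_eq_Ioc hx.le hxy.le, lintegral_union measurableSet_Ioc]
      rw [Set.disjoint_left]
      intro a ha hb
      exact absurd ha.2 (not_le.2 hb.1)
    have hI : ENNReal.ofReal (Φ y) = ENNReal.ofReal (Φ x) + 2 * ∫⁻ a in Ioc x y, k a := by
      rw [hhalf y hy, hhalf x hx, hsplit, mul_add]
    have hlow : ENNReal.ofReal ((y - x) * κ y) ≤ ∫⁻ a in Ioc x y, k a := by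
      have h1 : ∫⁻ a in Ioc x y, k y ≤ ∫⁻ a in Ioc x y, k a := by
        apply setLIntegral_mono' measurableSet_Ioc
        intro a ha
        exact anti a y (by linarith [ha.1]) ha.2
      rw [setLIntegral_const, Real.volume_Ioc, kκ y hy, mul_comm,
        ← ENNReal.ofReal_mul (by linarith)] at h1
      exact h1
    have hup : ∫⁻ a in Ioc x y, k a ≤ ENNReal.ofReal ((y - x) * κ x) := by
      have h1 : ∫⁻ a in Ioc x y, k a ≤ ∫⁻ a in Ioc x y, k x := by
        apply setLIntegral_mono' measurableSet_Ioc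
        intro a ha
        exact anti x a hx.le ha.1.le
      rw [setLIntegral_const, Real.volume_Ioc, kκ x hx, mul_comm,
        ← ENNReal.ofReal_mul (by linarith)] at h1
      exact h1
    have p1 : 0 ≤ Φ x := (hpos x hx).le
    have p2 : 0 ≤ Φ y := (hpos y hy).le
    have q1 : 0 ≤ (y - x) * κ y := mul_nonneg (by linarith) (κ0 y)
    have q2 : 0 ≤ (y - x) * κ x := mul_nonneg (by linarith) (κ0 x)
    have e2 : (2 : ℝ≥0∞) = ENNReal.ofReal 2 := by simp
    constructor
    · have h1 : ENNReal.ofReal (Φ x + 2 * ((y - x) * κ y)) ≤ ENNReal.ofReal (Φ y) := by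
        rw [hI, ENNReal.ofReal_add p1 (by positivity), ENNReal.ofReal_mul (by norm_num), ← e2]
        gcongr
      have := (ENNReal.ofReal_le_ofReal_iff p2).1 h1
      linarith
    · have h1 : ENNReal.ofReal (Φ y) ≤ ENNReal.ofReal (Φ x + 2 * ((y - x) * κ x)) := by
        rw [hI, ENNReal.ofReal_add p1 (by positivity), ENNReal.ofReal_mul (by norm_num), ← e2]
        gcongr
      have := (ENNReal.ofReal_le_ofReal_iff (by positivity)).1 h1
      linarith
  have hΦ1 : ∀ x, 0 < x → Φ1 x = 2 * κ x := by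
    intro x hx
    apply le_antisymm
    · -- right difference quotients
      have h1 : Tendsto (slope Φ x) (𝓝[>] x) (𝓝 (Φ1 x)) :=
        (hasDerivAt_iff_tendsto_slope.1 (hd x hx)).mono_left
          (nhdsWithin_mono x fun y hy => (ne_of_gt hy))
      apply le_of_tendsto h1
      filter_upwards [self_mem_nhdsWithin] with y hy
      have hxy : x < y := hy
      rw [slope_def_field, div_le_iff₀ (by linarith)]
      have := (hinc x y hx hxy).2
      linarith
    · have h1 : Tendsto (slope Φ x) (𝓝[<] x) (𝓝 (Φ1 x)) :=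
        (hasDerivAt_iff_tendsto_slope.1 (hd x hx)).mono_left
          (nhdsWithin_mono x fun y hy => (ne_of_lt hy))
      apply ge_of_tendsto h1
      have h0 : ∀ᶠ y in 𝓝[<] x, 0 < y :=
        nhdsWithin_le_nhds (lt_mem_nhds hx)
      filter_upwards [self_mem_nhdsWithin, h0] with y hy hy0
      have hxy : y < x := hy
      have e : slope Φ x y = (Φ x - Φ y) / (x - y) := by
        rw [slope_def_field, ← neg_div_neg_eq]; congr 1 <;> ring
      rw [e, le_div_iff₀ (by linarith)]
      have := (hinc y x hy0 hxy).1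
      linarith
  have κpos : ∀ x, 0 < x → 0 < κ x := by
    intro x hx
    rcases eq_or_lt_of_le (κ0 x) with h | h
    · exfalso
      have h1 := (hinc x (x + 1) hx (by linarith)).2
      rw [← h] at h1
      have h2 := hmono x (x + 1) hx (by linarith)
      linarith
    · exact h
  have κanti : ∀ x y, 0 < x → x ≤ y → κ y ≤ κ x := by
    intro x y hx hxy
    exact ENNReal.toReal_mono (hfin x hx) (anti x y hx.le hxy)
  have pos1 : ∀ x, 0 < x → 0 < Φ1 x := fun x hx => by
    rw [hΦ1 x hx]; have := κpos x hx; positivity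
  have hlog : ConcaveOn ℝ (Ioi 0) (fun x => Real.log (Φ1 x)) := by
    refine ⟨convex_Ioi 0, ?_⟩
    intro x hx y hy a b ha hb hab
    have hx' : 0 < x := hx
    have hy' : 0 < y := hy
    rcases eq_or_lt_of_le hb with h0 | h0
    · rw [← h0] at hab ⊢
      have : a = 1 := by linarith
      rw [this]; simp
    rcases eq_or_lt_of_le ha with h1 | h1
    · rw [← h1] at hab ⊢
      have : b = 1 := by linarith
      rw [this]; simp
    have hb1 : b < 1 := by linarith
    have ha' : a = 1 - b := by linarith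
    have hz : 0 < a • x + b • y := by
      simp only [smul_eq_mul]; positivity
    have h2 := hl b h0 hb1 x y
    rw [← ha'] at h2
    rw [kκ x hx', kκ y hy', kκ _ hz, ENNReal.ofReal_rpow_of_pos (κpos x hx'),
      ENNReal.ofReal_rpow_of_pos (κpos y hy'), ← ENNReal.ofReal_mul (by
        have := κpos x hx'; positivity)] at h2
    have h3 := (ENNReal.ofReal_le_ofReal_iff (κ0 _)).1 h2
    have px := κpos x hx'
    have py := κpos y hy'
    have h4 := Real.log_le_log (by positivity) h3
    rw [Real.log_mul (by positivity) (by positivity), Real.log_rpow px, Real.log_rpow py] at h4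
    beta_reduce
    rw [hΦ1 x hx', hΦ1 y hy', hΦ1 _ hz, Real.log_mul (by norm_num) px.ne',
      Real.log_mul (by norm_num) py.ne', Real.log_mul (by norm_num) (κpos _ hz).ne']
    simp only [smul_eq_mul] at h4 ⊢
    have e : a * Real.log 2 + b * Real.log 2 = Real.log 2 := by rw [← add_mul, hab, one_mul]
    linarith
  intro x hx
  have hk1 : Φ2 x ≤ 0 := by
    have h1 : Tendsto (slope Φ1 x) (𝓝[>] x) (𝓝 (Φ2 x)) :=
      (hasDerivAt_iff_tendsto_slope.1 (hd1 x hx)).mono_left
        (nhdsWithin_mono x fun y hy => (ne_of_gt hy))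
    apply le_of_tendsto h1
    filter_upwards [self_mem_nhdsWithin] with y hy
    have hxy : x < y := hy
    rw [slope_def_field]
    apply div_nonpos_of_nonpos_of_nonneg _ (by linarith)
    rw [hΦ1 x hx, hΦ1 y (hx.trans hxy)]
    have := κanti x y hx hxy.le
    linarith
  have hintk : IntegrableOn κ (Ioc 0 x) volume := by
    refine ⟨(hm.ennreal_toReal).aestronglyMeasurable, ?_⟩
    rw [hasFiniteIntegral_iff_ofReal (Filter.Eventually.of_forall κ0)]
    have : ∫⁻ a in Ioc 0 x, ENNReal.ofReal (κ a) = ∫⁻ a in Ioc 0 x, k a := by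
      apply setLIntegral_congr_fun measurableSet_Ioc
      intro a ha
      exact (kκ a ha.1).symm
    rw [this]
    have h1 := hhalf x hx
    by_contra hcon
    rw [not_lt, top_le_iff] at hcon
    rw [hcon] at h1
    exact ENNReal.ofReal_ne_top (h1.trans (by simp))
  have hval : ∫ a in (0 : ℝ)..x, Φ1 a = Φ x := by
    have e1 : ∫ a in (0 : ℝ)..x, Φ1 a = ∫ a in (0 : ℝ)..x, 2 * κ a := by
      apply intervalIntegral.integral_congr_ae
      apply Filter.Eventually.of_forall
      intro a ha
      rw [uIoc_of_le hx.le] at ha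
      exact hΦ1 a ha.1
    rw [e1, intervalIntegral.integral_const_mul, intervalIntegral.integral_of_le hx.le]
    rw [hκ, integral_toReal hm.aemeasurable]
    · have h1 := hhalf x hx
      have h2 := congrArg ENNReal.toReal h1
      rw [ENNReal.toReal_ofReal (hpos x hx).le, ENNReal.toReal_mul] at h2
      rw [h2]; simp
    · rw [ae_restrict_iff' measurableSet_Ioc]
      apply Filter.Eventually.of_forall
      intro a ha
      exact lt_top_iff_ne_top.2 (hfin a ha.1)
  have hint : IntervalIntegrable Φ1 volume 0 x := by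
    rw [intervalIntegrable_iff_integrableOn_Ioc_of_le hx.le]
    have h2 : IntegrableOn (fun a => 2 * κ a) (Ioc 0 x) volume := hintk.const_mul 2
    refine h2.congr_fun ?_ measurableSet_Ioc
    intro a ha
    exact (hΦ1 a ha.1).symm
  have hfinal := Pool.Agent.Lib.MP_2d002d_gt.H39.kappa_cond Φ1 x (Φ2 x) hx pos1
    (fun y hy hyx => by
      rw [hΦ1 x hx, hΦ1 y hy]
      have := κanti y x hy hyx
      linarith) hlog (hd1 x hx) hk1 hint
  rw [hval] at hfinal
  refine ⟨pos1 x hx, hfinal.1, hk1, ?_⟩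
  have := hfinal.2
  nlinarith

/-- K1 -/
theorem k1 : K1_S := k1_core

end Pool.Agent.Lib.MP_2d002d_gt.PM.H39
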